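import Mathlib
import Pool.Agent.Results.MP_4a6971_al.TorelliNegligible

namespace Pool.Agent.Y315.TN

open Pool.Agent.Results.MP_4a6971_al.TorelliNegligible

/-- The real homology `H_1(Σ_g; ℝ)`, in the coordinates of the standard basis. -/
abbrev HR (g : ℕ) : Type := Fin g ⊕ Fin g → ℝ

/-- The intersection form on the real homology. -/
def realForm {g : ℕ} (u v : HR g) : ℝ :=
  ∑ k : Fin g, (u (Sum.inl k) * v (Sum.inr k) - u (Sum.inr k) * v (Sum.inl k))

/-- The action of an automorphism `φ` of the surface group on the real homology: the matrix whose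
`j`-th column is the homology class of the image of the `j`-th generator. -/
def act {g : ℕ} (φ : orientedAut g) (v : HR g) : HR g :=
  fun i => ∑ j, (homologyClass (φ.1 (gen j)) i : ℝ) * v j

end Pool.Agent.Y315.TN
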