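import Mathlib
import Pool.Agent.Results.MP_4a6971_al.TorelliNegligible

open scoped ENNReal Pointwise
open Filter Topology

namespace Pool.Agent.Y315.TN

open Pool.Agent.Results.MP_4a6971_al.TorelliNegligible

section General

variable {G : Type*} [Group G] [DecidableEq G] {X : Type*} [MulAction G X]

open Classical in
/-- Square of the number of elements carrying one point to another. -/
lemma card_pair_sq {I : Type*} [Fintype I] (x0 y : X) (P : Finset G) (c : I → G) (o : I → I)
    (ho : Function.Injective o) (R : I → Set X)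
    (hR : ∀ i j, i ≠ j → Disjoint (R i) (R j))
    (hc : ∀ i x, x ∉ R (o i) → c i • x ∈ R i) (r : ℕ) :
    ((((P ∪ Finset.univ.image c) ^ r).filter (fun a => a • x0 = y)).card) ^ 2 ≤
      (3 * (P.card ^ 2 + 2 * Fintype.card I)) ^ r := by
  have h := en_pow x0 P c o ho R hR hc r
  have h2 : (cnt x0 ((P ∪ Finset.univ.image c) ^ r) y) ^ 2 ≤
      en (cnt x0 ((P ∪ Finset.univ.image c) ^ r)) :=
    ENNReal.le_tsum (f := fun x => (cnt x0 ((P ∪ Finset.univ.image c) ^ r) x) ^ 2) y
  have h3 := h2.trans h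
  unfold cnt at h3
  exact_mod_cast h3

end General

open Classical in
/-- The counting bound with explicit constants, for any two points, any finite set `S`, and any
finite set `J` of indices. -/
theorem pair_bound {G : Type*} [Group G] {X : Type*} [MulAction G X] (x1 : X)
    (t : ℕ → G) (U V : ℕ → Set X)
    (hU : ∀ i j, i ≠ j → Disjoint (U i) (U j))
    (hV : ∀ i j, i ≠ j → Disjoint (V i) (V j))
    (hUV : ∀ i j, Disjoint (U i) (V j))
    (ht : ∀ i x, x ∉ V i → t i • x ∈ U i)
    (ht' : ∀ i x, x ∉ U i → (t i)⁻¹ • x ∈ V i)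
    (hx1 : ∀ i, x1 ∉ V i) (S : Finset G) (J : Finset ℕ) (ε : ℝ) (hε : 0 < ε)
    (h1 : 5 * (S.card : ℝ) + 3 ≤ ε * J.card) (h2 : 24 ≤ ε ^ 2 * J.card) (r : ℕ) (x0 y : X) :
      ((ball ((S ∪ J.image t : Finset G) : Set G) r ∩ {a | a • x0 = y}).ncard : ℝ) ≤
      ε ^ r * ((ball ((S ∪ J.image t : Finset G) : Set G) r).ncard : ℝ) := by
  set P : Finset G := insert 1 (S ∪ S⁻¹) with hP
  set n : ℕ := J.card with hn
  have hPc : (P.card : ℝ) ≤ 2 * S.card + 1 := by
    have e1 : P.card ≤ (S ∪ S⁻¹).card + 1 := Finset.card_insert_le _ _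
    have e2 : (S ∪ S⁻¹).card ≤ S.card + (S⁻¹).card := Finset.card_union_le _ _
    have e3 : (S⁻¹ : Finset G).card = S.card := Finset.card_inv S
    have e4 : P.card ≤ 2 * S.card + 1 := by omega
    exact_mod_cast e4
  have hlarge : (3 * ((P.card : ℝ) ^ 2 + 4 * n)) ≤ (ε * n) ^ 2 := by
    have hp0 : (0 : ℝ) ≤ P.card := Nat.cast_nonneg _
    have hn0 : (0 : ℝ) ≤ n := Nat.cast_nonneg _
    have a1 : (5 : ℝ) * P.card ≤ 2 * (ε * n) := by linarith
    have a2 : 25 * (P.card : ℝ) ^ 2 ≤ 4 * (ε * n) ^ 2 := by nlinarith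
    have a3 : 24 * (n : ℝ) ≤ (ε * n) ^ 2 := by nlinarith
    nlinarith
  -- an enumeration of the index set
  obtain ⟨e⟩ : Nonempty (Fin n ≃ J) := ⟨(Finset.equivFin J).symm⟩
  set q : Fin n → ℕ := fun i => (e i : ℕ) with hq
  have hqinj : Function.Injective q := fun i j h => e.injective (Subtype.ext h)
  have hqimg : ∀ x : G, (∃ i, t (q i) = x) ↔ ∃ j ∈ J, t j = x := by
    intro x
    constructor
    · rintro ⟨i, hi⟩; exact ⟨q i, (e i).2, hi⟩
    · rintro ⟨j, hj, hi⟩
      refine ⟨e.symm ⟨j, hj⟩, ?_⟩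
      simp only [hq, Equiv.apply_symm_apply]
      exact hi
  set c : Fin n × Bool → G := fun p => if p.2 then t (q p.1) else (t (q p.1))⁻¹ with hc
  set R : Fin n × Bool → Set X := fun p => if p.2 then U (q p.1) else V (q p.1) with hRdef
  set o : Fin n × Bool → Fin n × Bool := fun p => (p.1, !p.2) with ho
  have hoinj : Function.Injective o := by
    rintro ⟨i, a⟩ ⟨j, b⟩ h
    simp only [ho, Prod.mk.injEq] at h
    rw [h.1]
    simpa using h.2
  have hRd : ∀ p q, p ≠ q → Disjoint (R p) (R q) := by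
    rintro ⟨i, a⟩ ⟨j, b⟩ hne
    have hij : a = b → q i ≠ q j := by
      rintro rfl h
      exact hne (by rw [hqinj h])
    cases a <;> cases b <;> simp only [hRdef, if_true, Bool.false_eq_true, if_false]
    · exact hV _ _ (hij rfl)
    · exact (hUV _ _).symm
    · exact hUV _ _
    · exact hU _ _ (hij rfl)
  have hcR : ∀ p x, x ∉ R (o p) → c p • x ∈ R p := by
    rintro ⟨i, a⟩ x hx
    cases a <;> simp only [hRdef, hc, ho, if_true, Bool.false_eq_true, if_false, Bool.not_true,
      Bool.not_false] at hx ⊢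
    · exact ht' _ _ hx
    · exact ht _ _ hx
  have hL : insert 1 ((S ∪ J.image t) ∪ (S ∪ J.image t)⁻¹) =
      P ∪ Finset.univ.image c := by
    ext x
    simp only [hP, Finset.mem_insert, Finset.mem_union, Finset.mem_inv', Finset.mem_image,
      Finset.mem_univ, true_and, Prod.exists, Bool.exists_bool, hc, if_true,
      Bool.false_eq_true, if_false]
    constructor
    · rintro (h | (h | h) | (h | h))
      · left; left; exact h
      · left; right; left; exact h
      · right
        obtain ⟨i, hi⟩ := (hqimg x).2 h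
        exact ⟨i, Or.inr hi⟩
      · left; right; right; exact h
      · right
        obtain ⟨i, hi⟩ := (hqimg x⁻¹).2 h
        exact ⟨i, Or.inl (by rw [hi, inv_inv])⟩
    · rintro ((h | h | h) | ⟨i, h | h⟩)
      · left; exact h
      · right; left; left; exact h
      · right; right; left; exact h
      · right; right; right; exact ⟨q i, (e i).2, by rw [← h, inv_inv]⟩
      · right; left; right; exact ⟨q i, (e i).2, h⟩
  rw [Pool.Agent.Results.MP_4a6971_al.TorelliNegligible.ball_eq, hL]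
  have hsq := card_pair_sq x0 y P c o hoinj R hRd hcR r
  have hpos := (card_pow_pos (n := n) x1 (fun i : Fin n => t (q i)) (fun i => U (q i))
    (fun i => V (q i))
    (fun i j hij => hU _ _ (fun h => hij (hqinj h))) (fun i j => hUV _ _)
    (fun i x hx => ht _ _ hx) (fun i => hx1 _) r).1
  have hsub : (Finset.univ.image (fun i : Fin n => t (q i))) ^ r ⊆
      (P ∪ Finset.univ.image c) ^ r := by
    refine Finset.pow_subset_pow_left ?_
    intro x hx
    obtain ⟨i, -, rfl⟩ := Finset.mem_image.1 hx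
    rw [Finset.mem_union]; right
    exact Finset.mem_image.2 ⟨(i, true), Finset.mem_univ _, by simp [hc]⟩
  have hcard : n ^ r ≤ ((P ∪ Finset.univ.image c) ^ r).card := by
    rw [← hpos]; exact Finset.card_le_card hsub
  have e1 : ((((P ∪ Finset.univ.image c) ^ r : Finset G) : Set G) ∩ {a | a • x0 = y}) =
      ((((P ∪ Finset.univ.image c) ^ r).filter (fun a => a • x0 = y) : Finset G) : Set G) := by
    ext x
    rw [Set.mem_inter_iff, Finset.mem_coe, Finset.mem_coe, Finset.mem_filter]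
    rfl
  rw [e1, Set.ncard_coe_finset, Set.ncard_coe_finset]
  have hI : Fintype.card (Fin n × Bool) = n * 2 := by simp
  rw [hI] at hsq
  have hsqR : ((((P ∪ Finset.univ.image c) ^ r).filter (fun a => a • x0 = y)).card : ℝ) ^ 2 ≤
      (3 * ((P.card : ℝ) ^ 2 + 4 * n)) ^ r := by
    have h : ((((P ∪ Finset.univ.image c) ^ r).filter (fun a => a • x0 = y)).card : ℝ) ^ 2 ≤
      (3 * ((P.card : ℝ) ^ 2 + 2 * (n * 2))) ^ r := by exact_mod_cast hsq
    refine h.trans (le_of_eq ?_)
    ring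
  have h2 : ((((P ∪ Finset.univ.image c) ^ r).filter (fun a => a • x0 = y)).card : ℝ) ^ 2 ≤
      ((ε * n) ^ r) ^ 2 := by
    refine hsqR.trans ?_
    rw [← pow_mul, mul_comm r 2, pow_mul]
    gcongr
  have h3 : ((((P ∪ Finset.univ.image c) ^ r).filter (fun a => a • x0 = y)).card : ℝ) ≤
      (ε * n) ^ r := by
    refine (sq_le_sq₀ (by positivity) (by positivity)).1 h2
  refine h3.trans ?_
  rw [mul_pow]
  gcongr
  exact_mod_cast hcard

/-- The same for sets. -/
theorem pair_bound_set {G : Type*} [Group G] {X : Type*} [MulAction G X] (x1 : X)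
    (t : ℕ → G) (U V : ℕ → Set X)
    (hU : ∀ i j, i ≠ j → Disjoint (U i) (U j))
    (hV : ∀ i j, i ≠ j → Disjoint (V i) (V j))
    (hUV : ∀ i j, Disjoint (U i) (V j))
    (ht : ∀ i x, x ∉ V i → t i • x ∈ U i)
    (ht' : ∀ i x, x ∉ U i → (t i)⁻¹ • x ∈ V i)
    (hx1 : ∀ i, x1 ∉ V i) (S : Set G) (hS : S.Finite) (J : Finset ℕ) (ε : ℝ) (hε : 0 < ε)
    (h1 : 5 * (S.ncard : ℝ) + 3 ≤ ε * J.card) (h2 : 24 ≤ ε ^ 2 * J.card) (r : ℕ) (x0 y : X) :
      ((ball (S ∪ t '' J) r ∩ {a | a • x0 = y}).ncard : ℝ) ≤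
      ε ^ r * ((ball (S ∪ t '' J) r).ncard : ℝ) := by
  classical
  have hc : hS.toFinset.card = S.ncard := (Set.ncard_eq_toFinset_card S hS).symm
  have h := pair_bound x1 t U V hU hV hUV ht ht' hx1 hS.toFinset J ε hε
    (by rw [hc]; exact h1) h2 r x0 y
  rw [Finset.coe_union, Set.Finite.coe_toFinset, Finset.coe_image] at h
  exact h

end Pool.Agent.Y315.TN
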