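import Mathlib
import Pool.Agent.Y315.TN.Defs

namespace Pool.Agent.Y315.TN

/-! ### The plane -/

/-- attracting cone -/
def PU (i : ℕ) (u : ℝ × ℝ) : Prop :=
  5 * (u.1 - i * u.2) ^ 2 ≤ 2 * u.2 * (u.1 - i * u.2)

/-- repelling cone -/
def PV (i : ℕ) (u : ℝ × ℝ) : Prop :=
  2 * u.2 * (u.1 - i * u.2) < -(5 * (u.1 - i * u.2) ^ 2)

/-- the shear -/
def linR (i : ℕ) (u : ℝ × ℝ) : ℝ × ℝ :=
  (u.1 + i * (5 * (u.1 - i * u.2)), u.2 + 5 * (u.1 - i * u.2))

lemma plane_boundR {u y : ℝ} (h : 5 * u ^ 2 ≤ |2 * y * u|) : 5 * |u| ≤ 2 * |y| := by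
  rcases eq_or_ne u 0 with rfl | hu
  · simp
  · have hu' : 0 < |u| := abs_pos.2 hu
    rw [abs_mul, abs_mul, ← sq_abs, abs_two] at h
    nlinarith

lemma plane_disjointR {i j : ℕ} (hij : i ≠ j) {u : ℝ × ℝ} (hne : u ≠ 0)
    (h1 : 5 * (u.1 - i * u.2) ^ 2 ≤ |2 * u.2 * (u.1 - i * u.2)|)
    (h2 : 5 * (u.1 - j * u.2) ^ 2 ≤ |2 * u.2 * (u.1 - j * u.2)|) : False := by
  obtain ⟨x, y⟩ := u
  simp only at h1 h2
  have b1 := plane_boundR h1
  have b2 := plane_boundR h2
  have hd : (1 : ℝ) ≤ |(i : ℝ) - j| := by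
    have : (1 : ℤ) ≤ |(i : ℤ) - j| := by
      apply Int.one_le_abs
      intro h
      exact hij (by exact_mod_cast (sub_eq_zero.1 h))
    exact_mod_cast this
  have e : ((i : ℝ) - j) * y = (x - j * y) - (x - i * y) := by ring
  have h3 : |((i : ℝ) - j)| * |y| ≤ |x - j * y| + |x - i * y| := by
    rw [← abs_mul, e]
    exact abs_sub _ _
  have h4 : |y| ≤ |((i : ℝ) - j)| * |y| := le_mul_of_one_le_left (abs_nonneg y) hd
  have hy : y = 0 := by
    have : |y| ≤ 0 := by
      by_contra hpos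
      push Not at hpos
      linarith
    exact abs_eq_zero.1 (le_antisymm this (abs_nonneg y))
  subst hy
  have hx : x = 0 := by
    have h5 : 5 * |x| ≤ 0 := by simpa using b1
    have h6 := abs_nonneg x
    exact abs_eq_zero.1 (le_antisymm (by linarith) h6)
  exact hne (by rw [hx]; rfl)

lemma PU_abs {i : ℕ} {u : ℝ × ℝ} (h : PU i u) :
    5 * (u.1 - i * u.2) ^ 2 ≤ |2 * u.2 * (u.1 - i * u.2)| := le_trans h (le_abs_self _)

lemma PV_abs {i : ℕ} {u : ℝ × ℝ} (h : PV i u) :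
    5 * (u.1 - i * u.2) ^ 2 ≤ |2 * u.2 * (u.1 - i * u.2)| := by
  have h' : 2 * u.2 * (u.1 - i * u.2) < -(5 * (u.1 - i * u.2) ^ 2) := h
  have := neg_abs_le (2 * u.2 * (u.1 - i * u.2))
  linarith

lemma PU_not_PV {i : ℕ} {u : ℝ × ℝ} (h : PU i u) (h' : PV i u) : False := by
  unfold PU at h
  unfold PV at h'
  nlinarith [sq_nonneg (u.1 - i * u.2)]

lemma PU_linR {i : ℕ} {u : ℝ × ℝ} (h : ¬ PV i u) : PU i (linR i u) := by
  unfold PV at h
  unfold PU linR
  simp only
  nlinarith [sq_nonneg (u.1 - i * u.2)]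

lemma PV_of_linR {i : ℕ} {u : ℝ × ℝ} (h : ¬ PU i (linR i u)) : PV i u := by
  unfold PU linR at h
  unfold PV
  simp only at h
  nlinarith [sq_nonneg (u.1 - i * u.2)]

lemma linR_ne {i : ℕ} {u : ℝ × ℝ} (h : u ≠ 0) : linR i u ≠ 0 := by
  intro h0
  apply h
  obtain ⟨x, y⟩ := u
  unfold linR at h0
  simp only [Prod.mk_eq_zero] at h0 ⊢
  obtain ⟨h1, h2⟩ := h0
  have h3 : x - i * y = 0 := by linear_combination h1 - i * h2
  rw [h3] at h1 h2
  constructor
  · linarith
  · linarith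

/-- The cross product. -/
def cr (u v : ℝ × ℝ) : ℝ := u.1 * v.2 - u.2 * v.1

lemma parallel_of_cr {u v : ℝ × ℝ} (hu : u ≠ 0) (hv : v ≠ 0) (h : cr u v = 0) :
    ∃ c : ℝ, c ≠ 0 ∧ v = (c * u.1, c * u.2) := by
  obtain ⟨x, y⟩ := u
  obtain ⟨p, q⟩ := v
  simp only [cr] at h
  by_cases hx : x = 0
  · subst hx
    have hy : y ≠ 0 := fun h => hu (by rw [h]; rfl)
    have hp : p = 0 := by
      have : y * p = 0 := by linarith
      rcases mul_eq_zero.1 this with h | h
      · exact absurd h hy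
      · exact h
    subst hp
    have hq : q ≠ 0 := fun h => hv (by rw [h]; rfl)
    refine ⟨q / y, div_ne_zero hq hy, ?_⟩
    simp only [mul_zero, Prod.mk.injEq, true_and]
    field_simp
  · have hp : p ≠ 0 := by
      intro hp
      subst hp
      have : x * q = 0 := by linarith
      rcases mul_eq_zero.1 this with h | h
      · exact hx h
      · exact hv (by rw [h]; rfl)
    refine ⟨p / x, div_ne_zero hp hx, ?_⟩
    simp only [Prod.mk.injEq]
    constructor
    · field_simp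
    · field_simp
      linarith

lemma PU_cr {i : ℕ} {u v : ℝ × ℝ} (hu : u ≠ 0) (hv : v ≠ 0) (h : cr u v = 0) (h1 : PU i u) :
    PU i v := by
  obtain ⟨c, hc, rfl⟩ := parallel_of_cr hu hv h
  unfold PU at h1 ⊢
  simp only
  have e1 : 5 * (c * u.1 - i * (c * u.2)) ^ 2 = c ^ 2 * (5 * (u.1 - i * u.2) ^ 2) := by ring
  have e2 : 2 * (c * u.2) * (c * u.1 - i * (c * u.2)) = c ^ 2 * (2 * u.2 * (u.1 - i * u.2)) := by
    ring
  rw [e1, e2]
  exact mul_le_mul_of_nonneg_left h1 (sq_nonneg c)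

lemma PV_cr {i : ℕ} {u v : ℝ × ℝ} (hu : u ≠ 0) (hv : v ≠ 0) (h : cr u v = 0) (h1 : PV i u) :
    PV i v := by
  obtain ⟨c, hc, rfl⟩ := parallel_of_cr hu hv h
  unfold PV at h1 ⊢
  simp only
  have e1 : -(5 * (c * u.1 - i * (c * u.2)) ^ 2) = c ^ 2 * (-(5 * (u.1 - i * u.2) ^ 2)) := by ring
  have e2 : 2 * (c * u.2) * (c * u.1 - i * (c * u.2)) = c ^ 2 * (2 * u.2 * (u.1 - i * u.2)) := by
    ring
  rw [e1, e2]
  have : 0 < c ^ 2 := by positivity
  exact mul_lt_mul_of_pos_left h1 this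

lemma cr_comm {u v : ℝ × ℝ} (h : cr u v = 0) : cr v u = 0 := by
  unfold cr at *
  linarith

/-! ### Isotropic subspaces -/

variable {g : ℕ}

/-- The two coordinates in handle `k`. -/
def hc (k : Fin g) (w : HR g) : ℝ × ℝ := (w (Sum.inl k), w (Sum.inr k))

lemma hc_eq_zero {k : Fin g} {w : HR g} :
    hc k w = 0 ↔ w (Sum.inl k) = 0 ∧ w (Sum.inr k) = 0 := by
  unfold hc
  exact Prod.mk_eq_zero

lemma hc_comb (k : Fin g) (a b : ℝ) (z w : HR g) :
    hc k (a • z + b • w) = (a * (hc k z).1 + b * (hc k w).1, a * (hc k z).2 + b * (hc k w).2) := by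
  simp [hc]

lemma realForm_eq (u v : HR g) : realForm u v = ∑ k, cr (hc k u) (hc k v) := rfl

/-- elements of `W` whose handle coordinates before `k` vanish -/
def tl (W : Submodule ℝ (HR g)) (k : Fin g) (w : HR g) : Prop :=
  w ∈ W ∧ ∀ j < k, hc j w = 0

/-- the last `k` for which the tail is not zero -/
def top' (W : Submodule ℝ (HR g)) (k : Fin g) : Prop :=
  (∃ w, w ≠ 0 ∧ tl W k w) ∧ ∀ w, tl W k w → hc k w = 0 → w = 0

lemma exists_hc_ne {w : HR g} (h : w ≠ 0) : ∃ k, hc k w ≠ 0 := by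
  by_contra hcon
  push Not at hcon
  apply h
  funext j
  rcases j with j | j
  · exact (hc_eq_zero.1 (hcon j)).1
  · exact (hc_eq_zero.1 (hcon j)).2

lemma tl_comb {W : Submodule ℝ (HR g)} {k : Fin g} {z w : HR g} (hz : tl W k z) (hw : tl W k w)
    (a b : ℝ) : tl W k (a • z + b • w) := by
  refine ⟨W.add_mem (W.smul_mem a hz.1) (W.smul_mem b hw.1), ?_⟩
  intro j hj
  rw [hc_comb, hz.2 j hj, hw.2 j hj]
  simp

lemma exists_top (W : Submodule ℝ (HR g)) (hW : W ≠ ⊥) : ∃ k, top' W k := by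
  classical
  obtain ⟨w0, hw0, hne0⟩ := W.ne_bot_iff.1 hW
  set A : Finset (Fin g) := Finset.univ.filter (fun k => ∃ w, w ≠ 0 ∧ tl W k w) with hA
  -- the least handle of a nonzero vector
  have key : ∀ w, w ∈ W → w ≠ 0 → ∃ k, hc k w ≠ 0 ∧ tl W k w := by
    intro w hw hne
    set B : Finset (Fin g) := Finset.univ.filter (fun k => hc k w ≠ 0) with hB
    have hBne : B.Nonempty := by
      obtain ⟨k, hk⟩ := exists_hc_ne hne
      exact ⟨k, by simp [hB, hk]⟩
    refine ⟨B.min' hBne, ?_, hw, ?_⟩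
    · exact (Finset.mem_filter.1 (B.min'_mem hBne)).2
    · intro j hj
      by_contra hj'
      have hjB : j ∈ B := by simp [hB, hj']
      exact absurd (B.min'_le j hjB) (not_le.2 hj)
  have hAne : A.Nonempty := by
    obtain ⟨k, -, hk⟩ := key w0 hw0 hne0
    exact ⟨k, by rw [hA, Finset.mem_filter]; exact ⟨Finset.mem_univ _, w0, hne0, hk⟩⟩
  refine ⟨A.max' hAne, ?_, ?_⟩
  · exact (Finset.mem_filter.1 (A.max'_mem hAne)).2
  · intro w hw hz
    by_contra hne
    obtain ⟨k, hk, hk'⟩ := key w hw.1 hne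
    have hkA : k ∈ A := by
      rw [hA, Finset.mem_filter]; exact ⟨Finset.mem_univ _, w, hne, hk'⟩
    have hle := A.le_max' k hkA
    rcases hle.lt_or_eq with h | h
    · exact hk (hw.2 k h)
    · rw [h] at hk; exact hk hz

lemma top_unique {W : Submodule ℝ (HR g)} {k k' : Fin g} (h : top' W k) (h' : top' W k') :
    k = k' := by
  have aux : ∀ {a b : Fin g}, top' W a → top' W b → ¬ a < b := by
    intro a b ha hb hab
    obtain ⟨w, hne, hw⟩ := hb.1
    exact hne (ha.2 w ⟨hw.1, fun j hj => hw.2 j (hj.trans hab)⟩ (hw.2 a hab))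
  rcases lt_trichotomy k k' with h1 | h1 | h1
  · exact absurd h1 (aux h h')
  · exact h1
  · exact absurd h1 (aux h' h)

/-- handle `l` is reversed relative to handle `k` -/
def NN (W : Submodule ℝ (HR g)) (k l : Fin g) : Prop :=
  ∃ z z', tl W k z ∧ tl W k z' ∧ cr (hc l z) (hc l z') * cr (hc k z) (hc k z') < 0

/-- the distinguished vectors of the plane attached to `W` -/
def DD (W : Submodule ℝ (HR g)) (u : ℝ × ℝ) : Prop :=
  ∃ k, top' W k ∧
    (((∀ l, ¬ NN W k l) ∧ ∃ w, w ≠ 0 ∧ tl W k w ∧ u = hc k w) ∨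
     (∃ l, NN W k l ∧ (∀ l' < l, ¬ NN W k l') ∧ ∃ w, w ≠ 0 ∧ tl W k w ∧
        (∃ c : ℝ, 0 < c ∧ (hc l w) = (c * (hc k w).1, c * (hc k w).2)) ∧ u = hc k w))

lemma DD_ne {W : Submodule ℝ (HR g)} {u : ℝ × ℝ} (h : DD W u) : u ≠ 0 := by
  obtain ⟨k, hk, h⟩ := h
  rcases h with ⟨-, w, hne, hw, rfl⟩ | ⟨l, -, -, w, hne, hw, -, rfl⟩
  · exact fun h0 => hne (hk.2 w hw h0)
  · exact fun h0 => hne (hk.2 w hw h0)

/-- a two by two pencil with determinants of opposite signs has a positive eigenvalue -/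
lemma pos_eigen {a b c d : ℝ × ℝ} (h : cr a b * cr c d < 0) :
    ∃ s t lam : ℝ, (s ≠ 0 ∨ t ≠ 0) ∧ 0 < lam ∧
      s * a.1 + t * b.1 = lam * (s * c.1 + t * d.1) ∧
      s * a.2 + t * b.2 = lam * (s * c.2 + t * d.2) := by
  -- polynomial `q(x) = cr (a - x c) (b - x d)`
  set q : ℝ → ℝ := fun x => cr a b - x * (cr a d + cr c b) + x ^ 2 * cr c d with hq
  have hroot : ∃ x, 0 < x ∧ q x = 0 := by
    set A := cr c d with hA
    set B := cr a d + cr c b with hB
    set C := cr a b with hC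
    have hA0 : A ≠ 0 := by rintro h0; rw [h0] at h; simp at h
    have hdisc : 0 < B ^ 2 - 4 * A * C := by nlinarith [sq_nonneg B]
    set s := Real.sqrt (B ^ 2 - 4 * A * C) with hs
    have hs2 : s ^ 2 = B ^ 2 - 4 * A * C := Real.sq_sqrt hdisc.le
    have hs0 : 0 ≤ s := Real.sqrt_nonneg _
    have hsB : B ^ 2 < s ^ 2 := by rw [hs2]; nlinarith
    have hBs : |B| < s := by
      rw [← sq_abs B] at hsB
      exact lt_of_pow_lt_pow_left₀ 2 hs0 hsB
    have h1 := abs_lt.1 hBs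
    rcases lt_or_gt_of_ne hA0 with hneg | hpos
    · refine ⟨(B - s) / (2 * A), div_pos_of_neg_of_neg (by linarith) (by linarith), ?_⟩
      simp only [hq]
      field_simp
      nlinarith [hs2]
    · refine ⟨(B + s) / (2 * A), div_pos (by linarith) (by linarith), ?_⟩
      simp only [hq]
      field_simp
      nlinarith [hs2]
  obtain ⟨x, hx, hqx⟩ := hroot
  have hdet : (a.1 - x * c.1) * (b.2 - x * d.2) - (a.2 - x * c.2) * (b.1 - x * d.1) = 0 := by
    have : (a.1 - x * c.1) * (b.2 - x * d.2) - (a.2 - x * c.2) * (b.1 - x * d.1) = q x := by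
      simp only [hq, cr]; ring
    rw [this, hqx]
  -- kernel vector
  by_cases h1 : b.1 - x * d.1 = 0 ∧ a.1 - x * c.1 = 0
  · by_cases h2 : b.2 - x * d.2 = 0 ∧ a.2 - x * c.2 = 0
    · refine ⟨1, 0, x, Or.inl one_ne_zero, hx, ?_, ?_⟩
      · linarith [h1.2]
      · linarith [h2.2]
    · refine ⟨b.2 - x * d.2, -(a.2 - x * c.2), x, ?_, hx, ?_, ?_⟩
      · by_contra hcon
        push Not at hcon
        exact h2 ⟨hcon.1, by linarith [hcon.2]⟩
      · linear_combination (b.2 - x * d.2) * h1.2 - (a.2 - x * c.2) * h1.1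
      · ring
  · refine ⟨b.1 - x * d.1, -(a.1 - x * c.1), x, ?_, hx, ?_, ?_⟩
    · by_contra hcon
      push Not at hcon
      exact h1 ⟨hcon.1, by linarith [hcon.2]⟩
    · ring
    · linear_combination -hdet

lemma DD_exists (W : Submodule ℝ (HR g)) (hW : W ≠ ⊥) : ∃ u, DD W u := by
  classical
  obtain ⟨k, hk⟩ := exists_top W hW
  by_cases hN : ∃ l, NN W k l
  · set B : Finset (Fin g) := Finset.univ.filter (fun l => NN W k l) with hB
    have hBne : B.Nonempty := by
      obtain ⟨l, hl⟩ := hN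
      exact ⟨l, by rw [hB, Finset.mem_filter]; exact ⟨Finset.mem_univ _, hl⟩⟩
    have hl : NN W k (B.min' hBne) := (Finset.mem_filter.1 (B.min'_mem hBne)).2
    have hmin : ∀ l' < B.min' hBne, ¬ NN W k l' := by
      intro l' hl' h
      have : l' ∈ B := by rw [hB, Finset.mem_filter]; exact ⟨Finset.mem_univ _, h⟩
      exact absurd (B.min'_le l' this) (not_le.2 hl')
    obtain ⟨z, z', hz, hz', hneg⟩ := id hl
    obtain ⟨s, t, lam, hst, hlam, e1, e2⟩ := pos_eigen hneg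
    have hk0 : cr (hc k z) (hc k z') ≠ 0 := by
      intro h0; rw [h0] at hneg; simp at hneg
    refine ⟨hc k (s • z + t • z'), k, hk, Or.inr ⟨_, hl, hmin, s • z + t • z', ?_,
      tl_comb hz hz' s t, ⟨lam, hlam, ?_⟩, rfl⟩⟩
    · intro h0
      have h1 := hc_comb k s t z z'
      rw [h0] at h1
      have h2 : hc k (0 : HR g) = 0 := by simp [hc]
      rw [h2] at h1
      have h3 := congrArg Prod.fst h1
      have h4 := congrArg Prod.snd h1
      simp only [Prod.fst_zero, Prod.snd_zero] at h3 h4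
      unfold cr at hk0
      have hs : s * ((hc k z).1 * (hc k z').2 - (hc k z).2 * (hc k z').1) = 0 := by
        linear_combination -(hc k z').2 * h3 + (hc k z').1 * h4
      have ht : t * ((hc k z).1 * (hc k z').2 - (hc k z).2 * (hc k z').1) = 0 := by
        linear_combination -(hc k z).1 * h4 + (hc k z).2 * h3
      rcases hst with h | h
      · exact (mul_ne_zero h hk0) hs
      · exact (mul_ne_zero h hk0) ht
    · rw [hc_comb, hc_comb]
      simp only [Prod.mk.injEq]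
      exact ⟨e1, e2⟩
  · obtain ⟨w, hne, hw⟩ := hk.1
    push Not at hN
    exact ⟨hc k w, k, hk, Or.inl ⟨hN, w, hne, hw, rfl⟩⟩

lemma DD_parallel {W : Submodule ℝ (HR g)} (hiso : ∀ u ∈ W, ∀ v ∈ W, realForm u v = 0)
    {u u' : ℝ × ℝ} (h : DD W u) (h' : DD W u') : cr u u' = 0 := by
  obtain ⟨k, hk, h⟩ := h
  obtain ⟨k', hk', h'⟩ := h'
  obtain rfl := top_unique hk hk'
  rcases h with ⟨hN, w, hne, hw, rfl⟩ | ⟨l, hl, hlmin, w, hne, hw, ⟨c, hc0, hcw⟩, rfl⟩
  · rcases h' with ⟨-, w', hne', hw', rfl⟩ | ⟨l, hl, -⟩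
    · have hs := hiso w hw.1 w' hw'.1
      rw [realForm_eq] at hs
      have hs2 : ∑ l, cr (hc l w) (hc l w') * cr (hc k w) (hc k w') = 0 := by
        rw [← Finset.sum_mul, hs, zero_mul]
      have hnn : ∀ l ∈ Finset.univ, 0 ≤ cr (hc l w) (hc l w') * cr (hc k w) (hc k w') := by
        intro l _
        by_contra hlt
        push Not at hlt
        exact hN l ⟨w, w', hw, hw', hlt⟩
      have := (Finset.sum_eq_zero_iff_of_nonneg hnn).1 hs2 k (Finset.mem_univ k)
      exact mul_self_eq_zero.1 this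
    · exact absurd hl (hN l)
  · rcases h' with ⟨hN, -⟩ | ⟨l', hl', hlmin', w', hne', hw', ⟨c', hc0', hcw'⟩, rfl⟩
    · exact absurd hl (hN l)
    · have hll : l = l' := by
        rcases lt_trichotomy l l' with h1 | h1 | h1
        · exact absurd hl (hlmin' l h1)
        · exact h1
        · exact absurd hl' (hlmin l' h1)
      subst hll
      by_contra hcr
      obtain ⟨z, z', hz, hz', hneg⟩ := hl
      -- coordinates with respect to `w, w'`
      have coord : ∀ y, tl W k y → ∃ a b : ℝ, y = a • w + b • w' := by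
        intro y hy
        set D := cr (hc k w) (hc k w') with hD
        refine ⟨cr (hc k y) (hc k w') / D, cr (hc k w) (hc k y) / D, ?_⟩
        have h0 : y - (cr (hc k y) (hc k w') / D) • w - (cr (hc k w) (hc k y) / D) • w' = 0 := by
          refine hk.2 _ ⟨W.sub_mem (W.sub_mem hy.1 (W.smul_mem _ hw.1)) (W.smul_mem _ hw'.1), ?_⟩ ?_
          · intro j hj
            have a1 := hc_eq_zero.1 (hy.2 j hj)
            have a2 := hc_eq_zero.1 (hw.2 j hj)
            have a3 := hc_eq_zero.1 (hw'.2 j hj)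
            rw [hc_eq_zero]
            simp [a1.1, a1.2, a2.1, a2.2, a3.1, a3.2]
          · rw [hc_eq_zero]
            simp only [Pi.sub_apply, Pi.smul_apply, smul_eq_mul]
            have hD' : D = w (Sum.inl k) * w' (Sum.inr k) - w (Sum.inr k) * w' (Sum.inl k) := rfl
            have hc1 : cr (hc k y) (hc k w') =
              y (Sum.inl k) * w' (Sum.inr k) - y (Sum.inr k) * w' (Sum.inl k) := rfl
            have hc2 : cr (hc k w) (hc k y) =
              w (Sum.inl k) * y (Sum.inr k) - w (Sum.inr k) * y (Sum.inl k) := rfl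
            rw [hc1, hc2]
            constructor
            · field_simp
              rw [hD']; ring
            · field_simp
              rw [hD']; ring
        rw [sub_sub, sub_eq_zero] at h0
        exact h0
      obtain ⟨a, b, rfl⟩ := coord z hz
      obtain ⟨a', b', rfl⟩ := coord z' hz'
      have e1 : cr (hc l (a • w + b • w')) (hc l (a' • w + b' • w')) =
          (a * b' - b * a') * (c * c' * cr (hc k w) (hc k w')) := by
        rw [hc_comb, hc_comb, hcw, hcw']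
        simp only [cr]
        ring
      have e2 : cr (hc k (a • w + b • w')) (hc k (a' • w + b' • w')) =
          (a * b' - b * a') * cr (hc k w) (hc k w') := by
        rw [hc_comb, hc_comb]
        simp only [cr]
        ring
      rw [e1, e2] at hneg
      have e3 : (a * b' - b * a') * (c * c' * cr (hc k w) (hc k w')) *
          ((a * b' - b * a') * cr (hc k w) (hc k w')) =
          (c * c') * ((a * b' - b * a') * cr (hc k w) (hc k w')) ^ 2 := by ring
      rw [e3] at hneg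
      have : 0 ≤ (c * c') * ((a * b' - b * a') * cr (hc k w) (hc k w')) ^ 2 := by positivity
      linarith

/-- `T` acts as the shear `linR i` in every handle. -/
def Diag (i : ℕ) (T : HR g →ₗ[ℝ] HR g) : Prop := ∀ k w, hc k (T w) = linR i (hc k w)

lemma linR_eq_zero {i : ℕ} {u : ℝ × ℝ} : linR i u = 0 ↔ u = 0 := by
  constructor
  · intro h
    by_contra h0
    exact linR_ne h0 h
  · rintro rfl
    simp [linR]

lemma cr_linR (i : ℕ) (u v : ℝ × ℝ) : cr (linR i u) (linR i v) = cr u v := by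
  unfold cr linR
  ring

lemma tl_map {i : ℕ} {T : HR g →ₗ[ℝ] HR g} (hT : Diag i T) {W : Submodule ℝ (HR g)} {k : Fin g}
    {w : HR g} (h : tl W k w) : tl (W.map T) k (T w) := by
  refine ⟨Submodule.mem_map_of_mem h.1, ?_⟩
  intro j hj
  rw [hT, h.2 j hj]
  exact linR_eq_zero.2 rfl

lemma tl_map_inv {i : ℕ} {T : HR g →ₗ[ℝ] HR g} (hT : Diag i T) {W : Submodule ℝ (HR g)}
    {k : Fin g} {z : HR g} (h : tl (W.map T) k z) : ∃ w, tl W k w ∧ T w = z := by
  obtain ⟨hz, hz'⟩ := h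
  obtain ⟨w, hw, rfl⟩ := Submodule.mem_map.1 hz
  refine ⟨w, ⟨hw, ?_⟩, rfl⟩
  intro j hj
  have := hz' j hj
  rw [hT] at this
  exact linR_eq_zero.1 this

lemma NN_map {i : ℕ} {T : HR g →ₗ[ℝ] HR g} (hT : Diag i T) {W : Submodule ℝ (HR g)}
    {k l : Fin g} : NN (W.map T) k l ↔ NN W k l := by
  constructor
  · rintro ⟨z, z', hz, hz', h⟩
    obtain ⟨w, hw, rfl⟩ := tl_map_inv hT hz
    obtain ⟨w', hw', rfl⟩ := tl_map_inv hT hz'
    refine ⟨w, w', hw, hw', ?_⟩
    rw [hT, hT, hT, hT, cr_linR, cr_linR] at h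
    exact h
  · rintro ⟨z, z', hz, hz', h⟩
    refine ⟨T z, T z', tl_map hT hz, tl_map hT hz', ?_⟩
    rw [hT, hT, hT, hT, cr_linR, cr_linR]
    exact h

lemma Diag_inj {i : ℕ} {T : HR g →ₗ[ℝ] HR g} (hT : Diag i T) {w : HR g} (h : T w = 0) :
    w = 0 := by
  by_contra hne
  obtain ⟨k, hk⟩ := exists_hc_ne hne
  have := hT k w
  rw [h] at this
  have h2 : hc k (0 : HR g) = 0 := by simp [hc]
  rw [h2] at this
  exact hk (linR_eq_zero.1 this.symm)

lemma top_map {i : ℕ} {T : HR g →ₗ[ℝ] HR g} (hT : Diag i T) {W : Submodule ℝ (HR g)}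
    {k : Fin g} (h : top' W k) : top' (W.map T) k := by
  obtain ⟨⟨w, hne, hw⟩, h2⟩ := h
  refine ⟨⟨T w, fun h0 => hne (Diag_inj hT h0), tl_map hT hw⟩, ?_⟩
  intro z hz hz0
  obtain ⟨y, hy, rfl⟩ := tl_map_inv hT hz
  rw [hT, linR_eq_zero] at hz0
  rw [h2 y hy hz0, map_zero]

lemma DD_map {i : ℕ} {T : HR g →ₗ[ℝ] HR g} (hT : Diag i T) {W : Submodule ℝ (HR g)}
    {u : ℝ × ℝ} (h : DD W u) : DD (W.map T) (linR i u) := by
  obtain ⟨k, hk, h⟩ := h
  refine ⟨k, top_map hT hk, ?_⟩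
  rcases h with ⟨hN, w, hne, hw, rfl⟩ | ⟨l, hl, hlmin, w, hne, hw, ⟨c, hc0, hcw⟩, rfl⟩
  · left
    exact ⟨fun l h => hN l ((NN_map hT).1 h), T w, fun h0 => hne (Diag_inj hT h0),
      tl_map hT hw, (hT k w).symm⟩
  · right
    refine ⟨l, (NN_map hT).2 hl, fun l' hl' h => hlmin l' hl' ((NN_map hT).1 h), T w,
      fun h0 => hne (Diag_inj hT h0), tl_map hT hw, ⟨c, hc0, ?_⟩, (hT k w).symm⟩
    rw [hT, hT, hcw]
    unfold linR
    simp only [Prod.mk.injEq]
    constructor <;> ring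

end Pool.Agent.Y315.TN
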