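import Mathlib
import Pool.Agent.Y315.TN.Gen
import Pool.Agent.Y315.TN.Iso

open scoped Pointwise

namespace Pool.Agent.Y315.TN

open Pool.Agent.Results.MP_4a6971_al.TorelliNegligible

variable {g : ℕ}

/-- The integer matrix of the action of an automorphism of the surface group on homology: its
`j`-th column is the homology class of the image of the `j`-th generator. -/
def hMat (φ : MulAut (SurfaceGroup g)) : Matrix (Fin g ⊕ Fin g) (Fin g ⊕ Fin g) ℤ :=
  Matrix.of (fun i j => homologyClass (φ (gen j)) i)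

lemma hMat_mulVec (φ : MulAut (SurfaceGroup g)) (x : SurfaceGroup g) :
    (hMat φ).mulVec (homologyClass x) = homologyClass (φ x) := by
  refine (hom_ext_class (F := fun x => (hMat φ).mulVec (homologyClass x))
    (F' := fun x => homologyClass (φ x)) ?_ ?_ ?_ x)
  · intro x y
    rw [homologyClass_mul, Matrix.mulVec_add]
  · intro x y
    rw [map_mul, homologyClass_mul]
  · intro j
    rw [homologyClass_of, Matrix.mulVec_single_one]
    rfl

lemma hMat_mul (φ ψ : MulAut (SurfaceGroup g)) : hMat (φ * ψ) = hMat φ * hMat ψ := by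
  ext i j
  have h := congrFun (hMat_mulVec φ (ψ (gen j))) i
  rw [Matrix.mul_apply]
  change homologyClass ((φ * ψ) (gen j)) i = _
  rw [MulAut.mul_apply, ← h]
  rfl

lemma hMat_one : hMat (1 : MulAut (SurfaceGroup g)) = 1 := by
  ext i j
  change homologyClass ((1 : MulAut (SurfaceGroup g)) (gen j)) i = _
  rw [MulAut.one_apply, homologyClass_of, Matrix.one_apply, Pi.single_apply]

/-- The real linear map induced on `H_1(Σ_g; ℝ)`, in the standard coordinates. -/
def realMap (φ : orientedAut g) : Module.End ℝ (HR g) :=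
  Matrix.toLin' ((hMat (φ : MulAut (SurfaceGroup g))).map (Int.castRingHom ℝ))

/-- `realMap` as a homomorphism. -/
def realMapHom (g : ℕ) : orientedAut g →* Module.End ℝ (HR g) where
  toFun := realMap
  map_one' := by
    unfold realMap
    rw [OneMemClass.coe_one, hMat_one, Matrix.map_one _ (map_zero _) (map_one _),
      Matrix.toLin'_one]
    rfl
  map_mul' := by
    intro φ ψ
    unfold realMap
    rw [Subgroup.coe_mul, hMat_mul, Matrix.map_mul, Matrix.toLin'_mul]
    rfl

lemma realMap_congr {φ ψ : orientedAut g}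
    (h : ∀ x : SurfaceGroup g, homologyClass ((φ : MulAut (SurfaceGroup g)) x) =
      homologyClass ((ψ : MulAut (SurfaceGroup g)) x)) : realMap φ = realMap ψ := by
  unfold realMap
  congr 2
  ext i j
  change homologyClass _ i = homologyClass _ i
  rw [h]

/-- The action of the mapping class group on `H_1(Σ_g; ℝ)`, in the standard coordinates. -/
def homRep (g : ℕ) : Mod g →* Module.End ℝ (HR g) :=
  QuotientGroup.lift (innerAut g) (realMapHom g) (by
    intro φ hφ
    rw [innerAut, Subgroup.mem_subgroupOf] at hφ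
    obtain ⟨z, hz⟩ := hφ
    rw [MonoidHom.mem_ker]
    have h1 : realMapHom g 1 = 1 := map_one _
    rw [← h1]
    refine realMap_congr ?_
    intro x
    rw [← hz, OneMemClass.coe_one, MulAut.one_apply, MulAut.conj_apply]
    have h2 : homologyHom g (z * x * z⁻¹) = homologyHom g x := by
      rw [map_mul, map_mul, map_inv, mul_comm, inv_mul_cancel_left]
    unfold homologyClass
    rw [h2])

lemma homRep_toMod (φ : orientedAut g) : homRep g (toMod φ) = realMap φ := rfl

lemma homRep_torelli {m : Mod g} (h : m ∈ torelli g) : homRep g m = 1 := by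
  obtain ⟨φ, rfl, hφ⟩ := h
  have h1 : realMapHom g 1 = 1 := map_one _
  rw [homRep_toMod, ← h1]
  refine realMap_congr ?_
  intro x
  have := homologyClass_congr (g := g) 1 (hφ x)
  exact this

lemma realMap_single (φ : orientedAut g) (j : Fin g ⊕ Fin g) :
    realMap φ (Pi.single j 1) =
      fun i => ((homologyClass ((φ : MulAut (SurfaceGroup g)) (gen j)) i : ℤ) : ℝ) := by
  unfold realMap
  rw [Matrix.toLin'_apply, Matrix.mulVec_single_one]
  rfl

lemma cast_form (u v : Fin g ⊕ Fin g → ℤ) :
    realForm (fun k => (u k : ℝ)) (fun k => (v k : ℝ)) = ((intersectionForm u v : ℤ) : ℝ) := by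
  unfold realForm intersectionForm
  push_cast
  rfl

/-- the real form as a bilinear map -/
def formB (g : ℕ) : HR g →ₗ[ℝ] HR g →ₗ[ℝ] ℝ :=
  LinearMap.mk₂ ℝ realForm
    (by intro a b c; unfold realForm; rw [← Finset.sum_add_distrib]
        refine Finset.sum_congr rfl (fun i _ => ?_); simp only [Pi.add_apply]; ring)
    (by intro a b c; unfold realForm; rw [smul_eq_mul, Finset.mul_sum]
        refine Finset.sum_congr rfl (fun i _ => ?_); simp only [Pi.smul_apply, smul_eq_mul]; ring)
    (by intro a b c; unfold realForm; rw [← Finset.sum_add_distrib]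
        refine Finset.sum_congr rfl (fun i _ => ?_); simp only [Pi.add_apply]; ring)
    (by intro a b c; unfold realForm; rw [smul_eq_mul, Finset.mul_sum]
        refine Finset.sum_congr rfl (fun i _ => ?_); simp only [Pi.smul_apply, smul_eq_mul]; ring)

lemma formB_apply (u v : HR g) : formB g u v = realForm u v := rfl

lemma realMap_form (φ : orientedAut g) (u v : HR g) :
    realForm (realMap φ u) (realMap φ v) = realForm u v := by
  have h : (formB g).compl₁₂ (realMap φ) (realMap φ) = formB g := by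
    refine (Pi.basisFun ℝ (Fin g ⊕ Fin g)).ext (fun i => ?_)
    refine (Pi.basisFun ℝ (Fin g ⊕ Fin g)).ext (fun j => ?_)
    rw [LinearMap.compl₁₂_apply, Pi.basisFun_apply, Pi.basisFun_apply, formB_apply, formB_apply,
      realMap_single, realMap_single, cast_form]
    have h2 := φ.2 (gen i) (gen j)
    rw [h2, homologyClass_of, homologyClass_of, ← cast_form]
    congr 1
    · funext k
      by_cases hk : k = i
      · subst hk; simp
      · simp [hk]
    · funext k
      by_cases hk : k = j
      · subst hk; simp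
      · simp [hk]
  have := LinearMap.congr_fun (LinearMap.congr_fun h u) v
  exact this

lemma homRep_form (m : Mod g) (u v : HR g) :
    realForm (homRep g m u) (homRep g m v) = realForm u v := by
  obtain ⟨φ, rfl⟩ := QuotientGroup.mk_surjective m
  exact realMap_form φ u v

lemma homRep_inv (m : Mod g) (u : HR g) : homRep g m⁻¹ (homRep g m u) = u := by
  rw [← Module.End.mul_apply, ← map_mul, inv_mul_cancel, map_one]
  rfl

/-- The mapping class group acts on the subspaces of real homology. -/
instance modAction (g : ℕ) : MulAction (Mod g) (Submodule ℝ (HR g)) where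
  smul m W := W.map (homRep g m)
  one_smul W := by
    change W.map (homRep g 1) = W
    rw [map_one]
    exact Submodule.map_id W
  mul_smul m m' W := by
    change W.map (homRep g (m * m')) = (W.map (homRep g m')).map (homRep g m)
    rw [map_mul]
    exact Submodule.map_comp _ _ _

lemma smul_def' (m : Mod g) (W : Submodule ℝ (HR g)) : m • W = W.map (homRep g m) := rfl

/-- The nonzero isotropic subspaces. -/
def isoSub (g : ℕ) : SubMulAction (Mod g) (Submodule ℝ (HR g)) where
  carrier := {W | W ≠ ⊥ ∧ ∀ u ∈ W, ∀ v ∈ W, realForm u v = 0}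
  smul_mem' := by
    rintro m W ⟨hW, hiso⟩
    refine ⟨?_, ?_⟩
    · intro h0
      apply hW
      rw [Submodule.eq_bot_iff]
      intro w hw
      have h1 : homRep g m w ∈ m • W := Submodule.mem_map_of_mem hw
      rw [h0, Submodule.mem_bot] at h1
      rw [← homRep_inv m w, h1, map_zero]
    · intro u hu v hv
      obtain ⟨u', hu', rfl⟩ := Submodule.mem_map.1 hu
      obtain ⟨v', hv', rfl⟩ := Submodule.mem_map.1 hv
      rw [homRep_form]
      exact hiso u' hu' v' hv'

/-! ### The twisting elements -/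

lemma realMap_autA (k0 : Fin g) (c : ℤ) (w : HR g) :
    realMap ⟨autA k0 c, autA_mem k0 c⟩ w =
      w + ((c : ℝ) * w (Sum.inr k0)) • Pi.single (Sum.inl k0) 1 := by
  have h : realMap ⟨autA k0 c, autA_mem k0 c⟩ = LinearMap.id +
      (((c : ℝ) • (LinearMap.proj (Sum.inr k0) : HR g →ₗ[ℝ] ℝ)).smulRight
        (Pi.single (Sum.inl k0) 1 : HR g)) := by
    refine (Pi.basisFun ℝ (Fin g ⊕ Fin g)).ext (fun j => ?_)
    rw [Pi.basisFun_apply, realMap_single]
    funext i
    simp only [homologyClass_autA, homologyClass_of, LinearMap.add_apply, LinearMap.id_apply,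
      LinearMap.smulRight_apply, LinearMap.smul_apply, LinearMap.proj_apply, Pi.add_apply,
      Pi.smul_apply, smul_eq_mul, Pi.single_apply]
    push_cast
    rfl
  rw [h]
  simp only [LinearMap.add_apply, LinearMap.id_apply,
      LinearMap.smulRight_apply, LinearMap.smul_apply, LinearMap.proj_apply, smul_eq_mul]

lemma realMap_autB (k0 : Fin g) (c : ℤ) (w : HR g) :
    realMap ⟨autB k0 c, autB_mem k0 c⟩ w =
      w + ((c : ℝ) * w (Sum.inl k0)) • Pi.single (Sum.inr k0) 1 := by
  have h : realMap ⟨autB k0 c, autB_mem k0 c⟩ = LinearMap.id +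
      (((c : ℝ) • (LinearMap.proj (Sum.inl k0) : HR g →ₗ[ℝ] ℝ)).smulRight
        (Pi.single (Sum.inr k0) 1 : HR g)) := by
    refine (Pi.basisFun ℝ (Fin g ⊕ Fin g)).ext (fun j => ?_)
    rw [Pi.basisFun_apply, realMap_single]
    funext i
    simp only [homologyClass_autB, homologyClass_of, LinearMap.add_apply, LinearMap.id_apply,
      LinearMap.smulRight_apply, LinearMap.smul_apply, LinearMap.proj_apply, Pi.add_apply,
      Pi.smul_apply, smul_eq_mul, Pi.single_apply]
    push_cast
    rfl
  rw [h]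
  simp only [LinearMap.add_apply, LinearMap.id_apply,
      LinearMap.smulRight_apply, LinearMap.smul_apply, LinearMap.proj_apply, smul_eq_mul]

lemma tau_hc (k0 k : Fin g) (i : ℕ) (w : HR g) :
    hc k (homRep g (toMod (tau k0 i)) w) = if k = k0 then linR i (hc k w) else hc k w := by
  have e : realMap (tau k0 i) w =
      realMap ⟨autA k0 i, autA_mem k0 i⟩ (realMap ⟨autB k0 5, autB_mem k0 5⟩
        (realMap ⟨autA k0 (-i), autA_mem k0 (-i)⟩ w)) := by
    change realMapHom g (tau k0 i) w = _
    unfold tau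
    rw [map_mul, map_mul]
    rfl
  rw [homRep_toMod, e, realMap_autA, realMap_autB, realMap_autA]
  by_cases hk : k = k0
  · subst hk
    rw [if_pos rfl]
    simp only [hc, linR, Pi.add_apply, Pi.smul_apply, Pi.single_apply, smul_eq_mul]
    simp
    constructor <;> ring
  · rw [if_neg hk]
    have h1 : (Sum.inl k : Fin g ⊕ Fin g) ≠ Sum.inl k0 := fun h => hk (Sum.inl.inj h)
    have h2 : (Sum.inr k : Fin g ⊕ Fin g) ≠ Sum.inr k0 := fun h => hk (Sum.inr.inj h)
    simp [hc, hk]

/-- The mapping classes used: the same twisting in every handle. -/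
def tt (g : ℕ) (i : ℕ) : Mod g := ((List.finRange g).map (fun k => toMod (tau k i))).prod

lemma list_hc (i : ℕ) (l : List (Fin g)) (hl : l.Nodup) (k : Fin g) (w : HR g) :
    hc k (homRep g ((l.map (fun k => toMod (tau k i))).prod) w) =
      if k ∈ l then linR i (hc k w) else hc k w := by
  induction l generalizing w with
  | nil => simp
  | cons a l ih =>
    rw [List.nodup_cons] at hl
    rw [List.map_cons, List.prod_cons, map_mul, Module.End.mul_apply, tau_hc, ih hl.2]
    by_cases hk : k = a
    · subst hk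
      simp [hl.1]
    · simp [hk]

lemma tt_diag (i : ℕ) : Diag i (homRep g (tt g i)) := by
  intro k w
  unfold tt
  rw [list_hc i _ (List.nodup_finRange g), if_pos (List.mem_finRange k)]

/-! ### The bound -/

/-- the chosen distinguished vector -/
noncomputable def vec (x : isoSub g) : ℝ × ℝ := (DD_exists x.1 x.2.1).choose

lemma vec_spec (x : isoSub g) : DD x.1 (vec x) := (DD_exists x.1 x.2.1).choose_spec

lemma vec_ne (x : isoSub g) : vec x ≠ 0 := DD_ne (vec_spec x)

lemma vec_smul (i : ℕ) (x : isoSub g) : cr (linR i (vec x)) (vec (tt g i • x)) = 0 :=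
  DD_parallel (tt g i • x).2.2 (DD_map (tt_diag i) (vec_spec x)) (vec_spec (tt g i • x))

lemma vec_line {j : Fin g ⊕ Fin g} (x : isoSub g)
    (hx : x.1 = Submodule.span ℝ {Pi.single j 1}) {k : Fin g} (hj : j = Sum.inl k) :
    (vec x).2 = 0 := by
  obtain ⟨k', -, h⟩ := vec_spec x
  have key : ∀ w, w ∈ x.1 → (hc k' w).2 = 0 := by
    intro w hw
    rw [hx, Submodule.mem_span_singleton] at hw
    obtain ⟨c, rfl⟩ := hw
    subst hj
    simp [hc]
  rcases h with ⟨-, w, -, hw, h⟩ | ⟨l, -, -, w, -, hw, -, h⟩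
  · rw [h]; exact key w hw.1
  · rw [h]; exact key w hw.1

lemma act_eq (φ : orientedAut g) (v : HR g) : act φ v = homRep g (toMod φ) v := by
  rw [homRep_toMod]
  unfold realMap
  rw [Matrix.toLin'_apply]
  rfl

/-- The main counting bound. -/
theorem iso_bound (g : ℕ) (hg : 1 ≤ g) (S : Set (Mod g)) (hS : S.Finite) (J : Finset ℕ) (ε : ℝ)
    (hε : 0 < ε) (h1 : 5 * (S.ncard : ℝ) + 3 ≤ ε * J.card) (h2 : 24 ≤ ε ^ 2 * J.card) (r : ℕ)
    (W W' : Submodule ℝ (HR g)) (hW : W ≠ ⊥) (hiso : ∀ u ∈ W, ∀ v ∈ W, realForm u v = 0) :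
      ((ball (S ∪ tt g '' J) r ∩ {a | W.map (homRep g a) = W'}).ncard : ℝ) ≤
      ε ^ r * ((ball (S ∪ tt g '' J) r).ncard : ℝ) := by
  classical
  let k0 : Fin g := ⟨0, hg⟩
  -- the base line
  have hbase : (Submodule.span ℝ {(Pi.single (Sum.inl k0) 1 : HR g)} : Submodule ℝ (HR g)) ∈
      isoSub g := by
    refine ⟨?_, ?_⟩
    · rw [Ne, Submodule.span_singleton_eq_bot]
      intro h0
      have := congrFun h0 (Sum.inl k0)
      simp at this
    · intro u hu v hv
      rw [Submodule.mem_span_singleton] at hu hv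
      obtain ⟨a, rfl⟩ := hu
      obtain ⟨b, rfl⟩ := hv
      unfold realForm
      refine Finset.sum_eq_zero (fun i _ => ?_)
      simp
  have hWm : W ∈ isoSub g := ⟨hW, hiso⟩
  by_cases hW' : W' ∈ isoSub g
  · have main := pair_bound_set (X := isoSub g) ⟨_, hbase⟩ (tt g)
      (fun i => {x | PU i (vec x)}) (fun i => {x | PV i (vec x)}) ?_ ?_ ?_ ?_ ?_ ?_ S hS J ε hε
      h1 h2 r ⟨W, hWm⟩ ⟨W', hW'⟩
    · have e : {a : Mod g | a • (⟨W, hWm⟩ : isoSub g) = ⟨W', hW'⟩} =
          {a | W.map (homRep g a) = W'} := by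
        ext a
        rw [Set.mem_ofPred_eq, Subtype.ext_iff]
        rfl
      rw [e] at main
      exact main
    · intro i j hij
      rw [Set.disjoint_left]
      intro x hx hx'
      exact plane_disjointR hij (vec_ne x) (PU_abs hx) (PU_abs hx')
    · intro i j hij
      rw [Set.disjoint_left]
      intro x hx hx'
      exact plane_disjointR hij (vec_ne x) (PV_abs hx) (PV_abs hx')
    · intro i j
      rw [Set.disjoint_left]
      intro x hx hx'
      by_cases hij : i = j
      · subst hij
        exact PU_not_PV hx hx'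
      · exact plane_disjointR hij (vec_ne x) (PU_abs hx) (PV_abs hx')
    · intro i x hx
      exact PU_cr (linR_ne (vec_ne x)) (vec_ne _) (vec_smul i x) (PU_linR hx)
    · intro i x hx
      set z := (tt g i)⁻¹ • x with hz
      have hxz : x = tt g i • z := by rw [hz, smul_inv_smul]
      refine PV_of_linR ?_
      intro hP
      apply hx
      have h3 := PU_cr (linR_ne (vec_ne z)) (vec_ne _) (vec_smul i z) hP
      rw [← hxz] at h3
      exact h3
    · intro i hx
      have h0 := vec_line (j := Sum.inl k0) ⟨_, hbase⟩ rfl (k := k0) rfl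
      change PV i (vec _) at hx
      unfold PV at hx
      rw [h0] at hx
      nlinarith [sq_nonneg ((vec (⟨_, hbase⟩ : isoSub g)).1 - i * 0)]
  · have e : ball (S ∪ tt g '' J) r ∩ {a | W.map (homRep g a) = W'} = ∅ := by
      rw [Set.eq_empty_iff_forall_notMem]
      rintro a ⟨-, ha⟩
      apply hW'
      have ha' : W.map (homRep g a) = W' := ha
      rw [← ha']
      exact (isoSub g).smul_mem a hWm
    rw [e, Set.ncard_empty, Nat.cast_zero]
    positivity

/-- The twisting elements are distinct. -/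
lemma tt_injective (hg : 1 ≤ g) : Function.Injective (tt g) := by
  intro i j hij
  by_contra hne
  let k0 : Fin g := ⟨0, hg⟩
  have h1 := tt_diag (g := g) i k0 (Pi.single (Sum.inl k0) 1)
  have h2 := tt_diag (g := g) j k0 (Pi.single (Sum.inl k0) 1)
  rw [hij, h2] at h1
  have h3 := congrArg Prod.fst h1
  simp only [linR, hc, Pi.single_eq_same] at h3
  simp at h3
  exact hne h3.symm

/-- The bound for the classes carrying one homology class to another. -/
theorem class_bound (g : ℕ) (hg : 1 ≤ g) (S : Set (Mod g)) (hS : S.Finite) (J : Finset ℕ) (ε : ℝ)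
    (hε : 0 < ε) (h1 : 5 * (S.ncard : ℝ) + 3 ≤ ε * J.card) (h2 : 24 ≤ ε ^ 2 * J.card) (r : ℕ)
    (v w : HR g) (hv : v ≠ 0) :
      ((ball (S ∪ tt g '' J) r ∩ {a | homRep g a v = w}).ncard : ℝ) ≤
      ε ^ r * ((ball (S ∪ tt g '' J) r).ncard : ℝ) := by
  have hfin : (ball (S ∪ tt g '' J) r).Finite :=
    ball_finite (hS.union (J.finite_toSet.image _)) r
  have main := iso_bound g hg S hS J ε hε h1 h2 r (Submodule.span ℝ {v}) (Submodule.span ℝ {w})
    (by rw [Ne, Submodule.span_singleton_eq_bot]; exact hv) (by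
      intro x hx y hy
      rw [Submodule.mem_span_singleton] at hx hy
      obtain ⟨a, rfl⟩ := hx
      obtain ⟨b, rfl⟩ := hy
      unfold realForm
      refine Finset.sum_eq_zero (fun i _ => ?_)
      simp only [Pi.smul_apply, smul_eq_mul]
      ring)
  refine le_trans ?_ main
  have hsub : ball (S ∪ tt g '' J) r ∩ {a | homRep g a v = w} ⊆
      ball (S ∪ tt g '' J) r ∩ {a | (Submodule.span ℝ {v}).map (homRep g a) =
        Submodule.span ℝ {w}} := by
    rintro a ⟨ha, ha'⟩
    refine ⟨ha, ?_⟩
    have ha2 : homRep g a v = w := ha'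
    change (Submodule.span ℝ {v}).map (homRep g a) = Submodule.span ℝ {w}
    rw [Submodule.map_span, Set.image_singleton, ha2]
  exact_mod_cast Set.ncard_le_ncard hsub (hfin.subset Set.inter_subset_left)

/-- The bound for the cosets of the Torelli group. -/
theorem coset_bound (g : ℕ) (hg : 1 ≤ g) (S : Set (Mod g)) (hS : S.Finite) (J : Finset ℕ) (ε : ℝ)
    (hε : 0 < ε) (h1 : 5 * (S.ncard : ℝ) + 3 ≤ ε * J.card) (h2 : 24 ≤ ε ^ 2 * J.card) (r : ℕ)
    (m : Mod g) :
      ((ball (S ∪ tt g '' J) r ∩ {a | m⁻¹ * a ∈ torelli g}).ncard : ℝ) ≤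
      ε ^ r * ((ball (S ∪ tt g '' J) r).ncard : ℝ) := by
  let k0 : Fin g := ⟨0, hg⟩
  have hfin : (ball (S ∪ tt g '' J) r).Finite :=
    ball_finite (hS.union (J.finite_toSet.image _)) r
  have main := class_bound g hg S hS J ε hε h1 h2 r (Pi.single (Sum.inl k0) 1)
    (homRep g m (Pi.single (Sum.inl k0) 1)) (by
      intro h0
      have := congrFun h0 (Sum.inl k0)
      simp at this)
  refine le_trans ?_ main
  have hsub : ball (S ∪ tt g '' J) r ∩ {a | m⁻¹ * a ∈ torelli g} ⊆
      ball (S ∪ tt g '' J) r ∩ {a | homRep g a (Pi.single (Sum.inl k0) 1) =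
        homRep g m (Pi.single (Sum.inl k0) 1)} := by
    rintro a ⟨ha, ha'⟩
    refine ⟨ha, ?_⟩
    have ha2 := homRep_torelli ha'
    change homRep g a (Pi.single (Sum.inl k0) 1) = homRep g m (Pi.single (Sum.inl k0) 1)
    have e : a = m * (m⁻¹ * a) := by group
    rw [e, map_mul, ha2, mul_one]
  exact_mod_cast Set.ncard_le_ncard hsub (hfin.subset Set.inter_subset_left)

/-- The same for the explicit action. -/
theorem iso_bound' (g : ℕ) (hg : 1 ≤ g) (S : Set (Mod g)) (hS : S.Finite) (J : Finset ℕ) (ε : ℝ)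
    (hε : 0 < ε) (h1 : 5 * (S.ncard : ℝ) + 3 ≤ ε * J.card) (h2 : 24 ≤ ε ^ 2 * J.card) (r : ℕ)
    (W W' : Submodule ℝ (HR g)) (hW : W ≠ ⊥) (hiso : ∀ u ∈ W, ∀ v ∈ W, realForm u v = 0) :
      ((ball (S ∪ tt g '' J) r ∩
        {a | ∃ φ : orientedAut g, toMod φ = a ∧ act φ '' W = W'}).ncard : ℝ) ≤
      ε ^ r * ((ball (S ∪ tt g '' J) r).ncard : ℝ) := by
  have hfin : (ball (S ∪ tt g '' J) r).Finite :=
    ball_finite (hS.union (J.finite_toSet.image _)) r
  refine le_trans ?_ (iso_bound g hg S hS J ε hε h1 h2 r W W' hW hiso)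
  have hsub : ball (S ∪ tt g '' J) r ∩
        {a | ∃ φ : orientedAut g, toMod φ = a ∧ act φ '' W = W'} ⊆
      ball (S ∪ tt g '' J) r ∩ {a | W.map (homRep g a) = W'} := by
    rintro a ⟨ha, φ, rfl, hφ⟩
    refine ⟨ha, ?_⟩
    change W.map (homRep g (toMod φ)) = W'
    apply SetLike.coe_injective
    rw [Submodule.map_coe, ← hφ]
    refine Set.image_congr (fun v _ => ?_)
    exact (act_eq φ v).symm
  exact_mod_cast Set.ncard_le_ncard hsub (hfin.subset Set.inter_subset_left)

/-- The same for the explicit action. -/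
theorem class_bound' (g : ℕ) (hg : 1 ≤ g) (S : Set (Mod g)) (hS : S.Finite) (J : Finset ℕ) (ε : ℝ)
    (hε : 0 < ε) (h1 : 5 * (S.ncard : ℝ) + 3 ≤ ε * J.card) (h2 : 24 ≤ ε ^ 2 * J.card) (r : ℕ)
    (v w : HR g) (hv : v ≠ 0) :
      ((ball (S ∪ tt g '' J) r ∩
        {a | ∃ φ : orientedAut g, toMod φ = a ∧ act φ v = w}).ncard : ℝ) ≤
      ε ^ r * ((ball (S ∪ tt g '' J) r).ncard : ℝ) := by
  have hfin : (ball (S ∪ tt g '' J) r).Finite :=
    ball_finite (hS.union (J.finite_toSet.image _)) r
  refine le_trans ?_ (class_bound g hg S hS J ε hε h1 h2 r v w hv)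
  have hsub : ball (S ∪ tt g '' J) r ∩
        {a | ∃ φ : orientedAut g, toMod φ = a ∧ act φ v = w} ⊆
      ball (S ∪ tt g '' J) r ∩ {a | homRep g a v = w} := by
    rintro a ⟨ha, φ, rfl, hφ⟩
    refine ⟨ha, ?_⟩
    change homRep g (toMod φ) v = w
    rw [← act_eq, hφ]
  exact_mod_cast Set.ncard_le_ncard hsub (hfin.subset Set.inter_subset_left)

end Pool.Agent.Y315.TN
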