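import Mathlib
import Pool.Agent.Y315.TN.Rep

namespace Pool.Agent.Y315.TN

open Pool.Agent.Results.MP_4a6971_al.TorelliNegligible

variable {g : ℕ}

/-- The radical of the intersection form on a subspace. -/
def rad (W : Submodule ℝ (HR g)) : Submodule ℝ (HR g) where
  carrier := {u | u ∈ W ∧ ∀ v ∈ W, realForm u v = 0}
  zero_mem' := ⟨W.zero_mem, fun v _ => by
    rw [← formB_apply, map_zero, LinearMap.zero_apply]⟩
  add_mem' := by
    rintro a b ⟨ha, ha'⟩ ⟨hb, hb'⟩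
    refine ⟨W.add_mem ha hb, fun v hv => ?_⟩
    rw [← formB_apply, map_add, LinearMap.add_apply, formB_apply, formB_apply, ha' v hv, hb' v hv,
      add_zero]
  smul_mem' := by
    rintro c a ⟨ha, ha'⟩
    refine ⟨W.smul_mem c ha, fun v hv => ?_⟩
    rw [← formB_apply, map_smul, LinearMap.smul_apply, formB_apply, ha' v hv, smul_zero]

lemma act_form (φ : orientedAut g) (u v : HR g) :
    realForm (act φ u) (act φ v) = realForm u v := by
  rw [act_eq, act_eq, homRep_form]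

lemma rad_image {φ : orientedAut g} {W W' : Submodule ℝ (HR g)} (h : act φ '' W = W') :
    act φ '' (rad W : Submodule ℝ (HR g)) = (rad W' : Submodule ℝ (HR g)) := by
  have hmem : ∀ v, v ∈ W → act φ v ∈ W' := by
    intro v hv
    have : act φ v ∈ (W' : Set (HR g)) := by
      rw [← h]
      exact ⟨v, hv, rfl⟩
    exact this
  have hex : ∀ v', v' ∈ W' → ∃ v ∈ W, act φ v = v' := by
    intro v' hv'
    have : v' ∈ act φ '' (W : Set (HR g)) := by
      rw [h]
      exact hv'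
    obtain ⟨v, hv, hv2⟩ := this
    exact ⟨v, hv, hv2⟩
  ext u'
  constructor
  · rintro ⟨u, ⟨hu, hu'⟩, rfl⟩
    refine ⟨hmem u hu, ?_⟩
    intro v' hv'
    obtain ⟨v, hv, rfl⟩ := hex v' hv'
    rw [act_form]
    exact hu' v hv
  · rintro ⟨hu, hu'⟩
    obtain ⟨u, hu2, rfl⟩ := hex u' hu
    refine ⟨u, ⟨hu2, ?_⟩, rfl⟩
    intro v hv
    rw [← act_form φ]
    exact hu' _ (hmem v hv)

/-- The bound for all subspaces on which the form is degenerate. -/
theorem rad_bound (g : ℕ) (hg : 1 ≤ g) (S : Set (Mod g)) (hS : S.Finite) (J : Finset ℕ) (ε : ℝ)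
    (hε : 0 < ε) (h1 : 5 * (S.ncard : ℝ) + 3 ≤ ε * J.card) (h2 : 24 ≤ ε ^ 2 * J.card) (r : ℕ)
    (W W' : Submodule ℝ (HR g)) (hW : ∃ u ∈ W, u ≠ 0 ∧ ∀ v ∈ W, realForm u v = 0) :
      ((ball (S ∪ tt g '' J) r ∩
        {a | ∃ φ : orientedAut g, toMod φ = a ∧ act φ '' W = W'}).ncard : ℝ) ≤
      ε ^ r * ((ball (S ∪ tt g '' J) r).ncard : ℝ) := by
  have hfin : (ball (S ∪ tt g '' J) r).Finite :=
    ball_finite (hS.union (J.finite_toSet.image _)) r
  obtain ⟨u, hu, hu0, huv⟩ := hW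
  have hmem : u ∈ rad W := ⟨hu, huv⟩
  refine le_trans ?_ (iso_bound' g hg S hS J ε hε h1 h2 r (rad W) (rad W')
    (fun h0 => hu0 (by rw [h0] at hmem; exact hmem)) (fun x hx y hy => hx.2 y hy.1))
  have hsub : ball (S ∪ tt g '' J) r ∩
        {a | ∃ φ : orientedAut g, toMod φ = a ∧ act φ '' W = W'} ⊆
      ball (S ∪ tt g '' J) r ∩
        {a | ∃ φ : orientedAut g, toMod φ = a ∧
          act φ '' (rad W : Submodule ℝ (HR g)) = (rad W' : Submodule ℝ (HR g))} := by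
    rintro a ⟨ha, φ, rfl, hφ⟩
    exact ⟨ha, φ, rfl, rad_image hφ⟩
  exact_mod_cast Set.ncard_le_ncard hsub (hfin.subset Set.inter_subset_left)

end Pool.Agent.Y315.TN
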